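import Mathlib
import Pool.Agent.Results.MP_62a0c3_nt.LargeCriticalHeight
import Pool.Agent.Results.MP_9b502d_nt.AllMapsCharZero
import Pool.Agent.X328.GN.IsoUp
import Pool.Agent.X328.GN.ExcUp2

/-!
# Preperiodic points of bounded gonality of all rational maps outside the non-rigid maps
-/

set_option autoImplicit false

namespace Pool.Agent.Results.MP_62a0c3_nt.AllMaps

open Polynomial
open Pool.Agent.Results.MP_62a0c3_nt.LargeCriticalHeight (IsotrivialOver Preper)
open Pool.Agent.Results.MP_9b502d_nt.AllMapsCharZero (IsExceptionalMap)

universe u v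

/-- **Geometric uniform boundedness on the projective line outside the non-rigid maps.** There is a
function `N` such that the following holds for every field `k` of characteristic zero (in particular
for the field of complex numbers), every field `K` over `k` (the function field of a curve), all `D`
and all `d ≥ 2`: if `f = p / q` is a rational map of degree `d` over `K` which over the algebraic
closure of `K` is not isotrivial (conjugate to a map with coefficients algebraic over `k`) and not
exceptional, then `Preper(f, D)` has at most `N(D, d)` points. -/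
theorem result : ∃ N : ℕ → ℕ → ℕ, ∀ (k : Type v) (K : Type u) [Field k] [CharZero k] [Field K]
    [Algebra k K] (D d : ℕ), 2 ≤ d → ∀ p q : K[X], IsCoprime p q →
    max p.natDegree q.natDegree = d →
    ¬ IsotrivialOver k (p.map (algebraMap K (AlgebraicClosure K)))
      (q.map (algebraMap K (AlgebraicClosure K))) d →
    ¬ IsExceptionalMap (p.map (algebraMap K (AlgebraicClosure K)))
      (q.map (algebraMap K (AlgebraicClosure K))) d →
    (Preper k p q d D).encard ≤ ((N D d : ℕ) : ℕ∞) := by
  obtain ⟨⟨N, hN⟩, -⟩ := Pool.Agent.Results.MP_9b502d_nt.AllMapsCharZero.result.{u, v}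
  refine ⟨fun D d => (N D d + 1) * ((N D d + 1) * (2 * d ^ (N D d) + 1)), ?_⟩
  intro k K _ _ _ _ D d hd p q hco hmax hiso hexc
  have e : ∀ (K : Type u) [Field K] (p q : K[X]) (d : ℕ),
      Pool.Agent.Results.MP_62a0c3_nt.LargeCriticalHeight.mapP1 p q d =
        Pool.Agent.W277.UH.ratP1 p q d := by
    intro K _ p q d
    funext z
    cases z <;> rfl
  have e5 : ∀ (K : Type u) [Field K] (p q : K[X]) (d : ℕ),
      Pool.Agent.Results.MP_9b502d_nt.LargeCriticalHeight.mapP1 p q d =
        Pool.Agent.W277.UH.ratP1 p q d := by
    intro K _ p q d
    funext z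
    cases z <;> rfl
  have hP : Preper k p q d D = {z : Option (AlgebraicClosure K) | (Set.range fun m : ℕ =>
        (Pool.Agent.W277.UH.ratP1 (p.map (algebraMap K (AlgebraicClosure K)))
          (q.map (algebraMap K (AlgebraicClosure K))) d)^[m] z).Finite ∧
      ∃ t : IntermediateField.adjoin K {x | z = some x}, Transcendental k t ∧
        FiniteDimensional (IntermediateField.adjoin k {t})
          (IntermediateField.adjoin K {x | z = some x}) ∧
        Module.finrank (IntermediateField.adjoin k {t})
          (IntermediateField.adjoin K {x | z = some x}) ≤ D} := by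
    unfold Preper
    rw [e]
    rfl
  rw [hP]
  refine Pool.Agent.Y706.CH7.gonc D d (N D d) hd p q hco hmax ?_
  intro E hE t ht hfd hD
  have hkEF : IsScalarTower k E (AlgebraicClosure K) := IsScalarTower.of_algebraMap_eq fun x => rfl
  have halg : Algebra.IsAlgebraic E (AlgebraicClosure K) :=
    Algebra.IsAlgebraic.tower_top (K := K) E
  have hcl : IsAlgClosure E (AlgebraicClosure K) := ⟨inferInstance, halg⟩
  have hmm : ∀ g : K[X], (g.map (algebraMap K E)).map (algebraMap E (AlgebraicClosure K)) =
      g.map (algebraMap K (AlgebraicClosure K)) := by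
    intro g
    rw [Polynomial.map_map, ← IsScalarTower.algebraMap_eq]
  have h := hN k E t ht hfd D d hD hd (p.map (algebraMap K E)) (q.map (algebraMap K E))
    (hco.map (Polynomial.mapRingHom (algebraMap K E))) (Pool.Agent.Y706.CH7.deg_map p q d hmax)
    (by
      intro h
      apply hiso
      have h1 := Pool.Agent.X328.GN.iso_up (A := AlgebraicClosure K) (p.map (algebraMap K E))
        (q.map (algebraMap K E)) d h
      rw [hmm, hmm] at h1
      exact h1) (by
      intro h
      apply hexc
      have h1 := Pool.Agent.X328.GN.excMap_up (A := AlgebraicClosure K) (p.map (algebraMap K E))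
        (q.map (algebraMap K E)) d h
      rw [hmm, hmm] at h1
      exact h1)
  rw [e5] at h
  exact h

end Pool.Agent.Results.MP_62a0c3_nt.AllMaps
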