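import Mathlib
import Pool.Agent.Results.MP_62a0c3_nt.LargeCriticalHeight
import Pool.Agent.Results.MP_9b502d_nt.GenericMaps
import Pool.Agent.X328.GN.IsoUp

/-!
# Preperiodic points of bounded gonality of generic rational maps of every degree
-/

set_option autoImplicit false

namespace Pool.Agent.Results.MP_62a0c3_nt.GenericMaps

open Polynomial
open Pool.Agent.Results.MP_62a0c3_nt.LargeCriticalHeight (Conjugate IsotrivialOver Preper)

universe u v

/-- The value of the polynomial `Δ` in `2 d + 2` variables at the coefficients of `p` and `q`. -/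
noncomputable def coeffValue {L : Type*} [Field L] (d : ℕ)
    (Δ : MvPolynomial (Fin (d + 1) ⊕ Fin (d + 1)) ℤ) (p q : L[X]) : L :=
  MvPolynomial.aeval (Sum.elim (fun i : Fin (d + 1) => p.coeff i)
    (fun i : Fin (d + 1) => q.coeff i)) Δ

/-- **Geometric uniform boundedness for generic rational maps.** For every `d ≥ 2` there are a
polynomial `Δ` with integer coefficients in the `2 d + 2` coefficients of a rational map `p / q` of
degree `d`, not vanishing for some conjugate over `ℚ` of the map `X ^ d`, and a function `N` such
that the following holds for every field `k` of characteristic zero (in particular for the field of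
complex numbers), every field `K` over `k` (the function field of a curve), every `D`, and every
rational map `f = p / q` of degree `d` over `K` which is not isotrivial and for which `Δ` does not
vanish: `Preper(f, D)` has at most `N(D)` points. -/
theorem result (d : ℕ) (hd : 2 ≤ d) : ∃ Δ : MvPolynomial (Fin (d + 1) ⊕ Fin (d + 1)) ℤ,
    (∃ p₀ q₀ : ℚ[X], Conjugate (X ^ d) 1 p₀ q₀ d ∧ coeffValue d Δ p₀ q₀ ≠ 0) ∧
    ∃ N : ℕ → ℕ, ∀ (k : Type v) (K : Type u) [Field k] [CharZero k] [Field K] [Algebra k K] (D : ℕ),
    ∀ p q : K[X], IsCoprime p q → max p.natDegree q.natDegree = d → coeffValue d Δ p q ≠ 0 →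
    ¬ IsotrivialOver k (p.map (algebraMap K (AlgebraicClosure K)))
      (q.map (algebraMap K (AlgebraicClosure K))) d →
    (Preper k p q d D).encard ≤ ((N D : ℕ) : ℕ∞) := by
  obtain ⟨Δ, hΔ, N, hN⟩ := Pool.Agent.Results.MP_9b502d_nt.GenericMaps.result.{u, v} d hd
  refine ⟨Δ, hΔ, fun D => (N D + 1) * ((N D + 1) * (2 * d ^ (N D) + 1)), ?_⟩
  intro k K _ _ _ _ D p q hco hmax hΔpq hiso
  have e : ∀ (K : Type u) [Field K] (p q : K[X]) (d : ℕ),
      Pool.Agent.Results.MP_62a0c3_nt.LargeCriticalHeight.mapP1 p q d =
        Pool.Agent.W277.UH.ratP1 p q d := by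
    intro K _ p q d
    funext z
    cases z <;> rfl
  have e5 : ∀ (K : Type u) [Field K] (p q : K[X]) (d : ℕ),
      Pool.Agent.Results.MP_9b502d_nt.LargeCriticalHeight.mapP1 p q d =
        Pool.Agent.W277.UH.ratP1 p q d := by
    intro K _ p q d
    funext z
    cases z <;> rfl
  have hP : Preper k p q d D = {z : Option (AlgebraicClosure K) | (Set.range fun m : ℕ =>
        (Pool.Agent.W277.UH.ratP1 (p.map (algebraMap K (AlgebraicClosure K)))
          (q.map (algebraMap K (AlgebraicClosure K))) d)^[m] z).Finite ∧
      ∃ t : IntermediateField.adjoin K {x | z = some x}, Transcendental k t ∧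
        FiniteDimensional (IntermediateField.adjoin k {t})
          (IntermediateField.adjoin K {x | z = some x}) ∧
        Module.finrank (IntermediateField.adjoin k {t})
          (IntermediateField.adjoin K {x | z = some x}) ≤ D} := by
    unfold Preper
    rw [e]
    rfl
  rw [hP]
  refine Pool.Agent.Y706.CH7.gonc D d (N D) hd p q hco hmax ?_
  intro E hE t ht hfd hD
  have hkEF : IsScalarTower k E (AlgebraicClosure K) := IsScalarTower.of_algebraMap_eq fun x => rfl
  have hmm : ∀ g : K[X], (g.map (algebraMap K E)).map (algebraMap E (AlgebraicClosure K)) =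
      g.map (algebraMap K (AlgebraicClosure K)) := by
    intro g
    rw [Polynomial.map_map, ← IsScalarTower.algebraMap_eq]
  have h := hN k E t ht hfd D hD (p.map (algebraMap K E)) (q.map (algebraMap K E))
    (hco.map (Polynomial.mapRingHom (algebraMap K E))) (Pool.Agent.Y706.CH7.deg_map p q d hmax)
    (by
      have h1 : Sum.elim (fun i : Fin (d + 1) => (p.map (algebraMap K E)).coeff i)
          (fun i : Fin (d + 1) => (q.map (algebraMap K E)).coeff i) =
          fun s => algebraMap K E (Sum.elim (fun i : Fin (d + 1) => p.coeff i)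
            (fun i : Fin (d + 1) => q.coeff i) s) := by
        funext s
        cases s <;> simp
      show MvPolynomial.aeval _ Δ ≠ 0
      rw [h1, Pool.Agent.X328.GN.aeval_map_int (algebraMap K E)]
      exact (_root_.map_ne_zero (algebraMap K E)).2 hΔpq) (by
      intro h
      apply hiso
      have h1 := Pool.Agent.X328.GN.iso_up (A := AlgebraicClosure K) (p.map (algebraMap K E))
        (q.map (algebraMap K E)) d h
      rw [hmm, hmm] at h1
      exact h1)
  rw [e5] at h
  exact h

end Pool.Agent.Results.MP_62a0c3_nt.GenericMaps
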